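import Pool.Agent.Work.MP_7e30a6_pr.Amen

open MeasureTheory
open scoped ENNReal

namespace Pool.Agent.Results.MP_7e30a6_pr.NonuniqInterval

/-- The nearest-neighbour graph on the integers. -/
def lineZ : SimpleGraph ℤ where
  Adj m n := |m - n| = 1
  symm := ⟨fun m n h => by rw [abs_sub_comm]; exact h⟩
  loopless := ⟨fun m h => by simp at h⟩

/-- The edges of the subgraph `H` with exactly one endpoint in `K`. -/
def edgeBoundary {V : Type} {G : SimpleGraph V} (H : G.Subgraph) (K : Set V) : Set (Sym2 V) :=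
  {e | e ∈ H.edgeSet ∧ ∃ x ∈ K, ∃ y, y ∉ K ∧ e = s(x, y)}

/-- The isoperimetric constant `h(H)`: infimum of `|∂_E K| / |K|` over the finite nonempty
sets `K` of vertices of `H`. -/
noncomputable def isoConst {V : Type} {G : SimpleGraph V} (H : G.Subgraph) : ℝ≥0∞ :=
  ⨅ (K : Finset V) (_ : K.Nonempty) (_ : (K : Set V) ⊆ H.verts),
    ((edgeBoundary H (K : Set V)).encard : ℝ≥0∞) / (K.card : ℝ≥0∞)

/-- `H` is nonamenable: `h(H) > 0`. -/
def Nonamenable {V : Type} {G : SimpleGraph V} (H : G.Subgraph) : Prop := 0 < isoConst H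

/-- `G` is strongly amenable: no (nonempty) subgraph of `G` is nonamenable. -/
def StronglyAmenable {V : Type} (G : SimpleGraph V) : Prop :=
  ∀ H : G.Subgraph, H.verts.Nonempty → ¬ Nonamenable H

/-- Bernoulli bond percolation on `Γ` with parameter `p`: the product over the edges of `Γ` of
the measures giving mass `p` to `true` (open) and `1 - p` to `false` (closed). -/
noncomputable def bondPercolation {W : Type} (Γ : SimpleGraph W) (p : unitInterval) :
    Measure (Γ.edgeSet → Bool) :=
  Measure.infinitePi fun _ => ProbabilityTheory.bernoulliMeasure true false p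

/-- The graph of open edges of the configuration `ω`. -/
def openSubgraph {W : Type} (Γ : SimpleGraph W) (ω : Γ.edgeSet → Bool) : SimpleGraph W where
  Adj x y := ∃ h : s(x, y) ∈ Γ.edgeSet, ω ⟨s(x, y), h⟩ = true
  symm := ⟨fun x y h => by rw [Sym2.eq_swap]; exact h⟩
  loopless := ⟨fun x h => by
    obtain ⟨h, _⟩ := h
    exact Γ.loopless.irrefl x h⟩

/-- The set of infinite clusters (infinite connected components of the open subgraph). -/
def infiniteClusters {W : Type} (Γ : SimpleGraph W) (ω : Γ.edgeSet → Bool) :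
    Set (openSubgraph Γ ω).ConnectedComponent :=
  {C | C.supp.Infinite}

/-- There is a connected, infinite, strongly amenable graph `G` (of bounded degree) and
`p₁ < p₂` such that for every `p` in `[p₁, p₂]`, Bernoulli-`p` bond percolation on `G × ℤ` has
infinitely many infinite clusters almost surely. -/
theorem result :
    ∃ (V : Type) (G : SimpleGraph V), Infinite V ∧ G.Connected ∧
      (∃ D : ℕ, ∀ v, (G.neighborSet v).encard ≤ D) ∧ StronglyAmenable G ∧
      ∃ p₁ p₂ : unitInterval, p₁ < p₂ ∧ ∀ p : unitInterval, p₁ ≤ p → p ≤ p₂ →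
        ∀ᵐ ω ∂(bondPercolation (G □ lineZ) p), (infiniteClusters (G □ lineZ) ω).Infinite := by
  refine ⟨Work.MP_7e30a6_pr.T, Work.MP_7e30a6_pr.tree, Work.MP_7e30a6_pr.T_infinite,
    Work.MP_7e30a6_pr.tree_connected, ⟨101, fun v => Work.MP_7e30a6_pr.nbr_encard v⟩, ?_,
    ⟨1 / 25, by norm_num, by norm_num⟩, ⟨1 / 24, by norm_num, by norm_num⟩, ?_, ?_⟩
  · intro H hH hpos
    have key : ∀ N : ℕ, isoConst H ≤ ((N + 1 : ℕ) : ℝ≥0∞)⁻¹ := by
      intro N
      obtain ⟨K, hK1, hK2, hK3⟩ := Work.MP_7e30a6_pr.exists_good_set H hH N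
      refine (iInf_le_of_le K (iInf_le_of_le hK1 (iInf_le_of_le hK2 le_rfl))).trans ?_
      have hc : (K.card : ℝ≥0∞) ≠ 0 := by
        simpa using hK1.ne_empty
      rw [ENNReal.div_le_iff hc (by finiteness), mul_comm, ← div_eq_mul_inv,
        ENNReal.le_div_iff_mul_le (Or.inl (by simp)) (Or.inl (by finiteness))]
      have heq : Work.MP_7e30a6_pr.eBd H (K : Set Work.MP_7e30a6_pr.T) =
        edgeBoundary H (K : Set Work.MP_7e30a6_pr.T) := rfl
      rw [heq] at hK3
      have h4 : (((edgeBoundary H (K : Set Work.MP_7e30a6_pr.T)).encard *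
        ((N + 1 : ℕ) : ℕ∞) : ℕ∞) : ℝ≥0∞) ≤ ((K.card : ℕ∞) : ℝ≥0∞) := by
        exact_mod_cast hK3
      simpa using h4
    have hzero : isoConst H = 0 := by
      have ht : Filter.Tendsto (fun N : ℕ => ((N + 1 : ℕ) : ℝ≥0∞)⁻¹) Filter.atTop (nhds 0) :=
        ENNReal.tendsto_inv_nat_nhds_zero.comp (Filter.tendsto_add_atTop_nat 1)
      exact le_antisymm (ge_of_tendsto' ht key) zero_le
    exact absurd hpos (by rw [Nonamenable, hzero]; exact lt_irrefl _)
  · change (1 / 25 : ℝ) < 1 / 24
    norm_num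
  · intro p h1 h2
    exact Work.MP_7e30a6_pr.ae_infinite_clusters p h1 h2

end Pool.Agent.Results.MP_7e30a6_pr.NonuniqInterval
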